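import Mathlib
import Pool.Agent.Lib.MP_97284c_gt.P.Hull

/-!
# MP_97284c_gt, part G: area of a triangle
-/

namespace MP97284cP

open MeasureTheory Set

/-- the standard triangle in the complex plane -/
def stdTri : Set ℂ := {z : ℂ | 0 ≤ z.re ∧ 0 ≤ z.im ∧ z.re + z.im ≤ 1}

theorem volume_stdTri : volume stdTri = ENNReal.ofReal (1 / 2) := by
  have hS : MeasurableSet {p : ℝ × ℝ | 0 ≤ p.1 ∧ 0 ≤ p.2 ∧ p.1 + p.2 ≤ 1} := by
    apply IsClosed.measurableSet
    have : {p : ℝ × ℝ | 0 ≤ p.1 ∧ 0 ≤ p.2 ∧ p.1 + p.2 ≤ 1} =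
        {p : ℝ × ℝ | 0 ≤ p.1} ∩ ({p : ℝ × ℝ | 0 ≤ p.2} ∩ {p : ℝ × ℝ | p.1 + p.2 ≤ 1}) := by
      ext p; simp
    rw [this]
    exact (isClosed_le continuous_const continuous_fst).inter
      ((isClosed_le continuous_const continuous_snd).inter
        (isClosed_le (continuous_fst.add continuous_snd) continuous_const))
  have h1 : volume stdTri =
      volume {p : ℝ × ℝ | 0 ≤ p.1 ∧ 0 ≤ p.2 ∧ p.1 + p.2 ≤ 1} := by
    rw [← Complex.volume_preserving_equiv_real_prod.measure_preimage hS.nullMeasurableSet]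
    rfl
  rw [h1, Measure.volume_eq_prod, Measure.prod_apply hS]
  have h2 : ∀ x : ℝ, volume (Prod.mk x ⁻¹' {p : ℝ × ℝ | 0 ≤ p.1 ∧ 0 ≤ p.2 ∧ p.1 + p.2 ≤ 1}) =
      (Icc (0 : ℝ) 1).indicator (fun x => ENNReal.ofReal (1 - x)) x := by
    intro x
    by_cases hx : x ∈ Icc (0 : ℝ) 1
    · rw [indicator_of_mem hx]
      have : Prod.mk x ⁻¹' {p : ℝ × ℝ | 0 ≤ p.1 ∧ 0 ≤ p.2 ∧ p.1 + p.2 ≤ 1} = Icc 0 (1 - x) := by
        ext y
        simp only [mem_preimage, mem_Icc]
        constructor
        · rintro ⟨_, h2, h3⟩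
          simp at h2 h3
          exact ⟨h2, by linarith⟩
        · rintro ⟨h2, h3⟩
          exact ⟨hx.1, h2, by simp; linarith⟩
      rw [this, Real.volume_Icc]; simp
    · rw [indicator_of_notMem hx]
      have : Prod.mk x ⁻¹' {p : ℝ × ℝ | 0 ≤ p.1 ∧ 0 ≤ p.2 ∧ p.1 + p.2 ≤ 1} = ∅ := by
        ext y
        simp only [mem_preimage, mem_empty_iff_false, iff_false]
        rintro ⟨h1, h2, h3⟩
        simp at h1 h2 h3
        exact hx ⟨h1, by linarith⟩
      rw [this]; simp
  simp_rw [h2]
  rw [lintegral_indicator measurableSet_Icc]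
  have h3 : ∫⁻ x in Icc (0 : ℝ) 1, ENNReal.ofReal (1 - x) =
      ENNReal.ofReal (∫ x in Icc (0 : ℝ) 1, (1 - x)) := by
    rw [ofReal_integral_eq_lintegral_ofReal]
    · apply ContinuousOn.integrableOn_Icc; fun_prop
    · rw [Filter.EventuallyLE, ae_restrict_iff' measurableSet_Icc]
      filter_upwards with x hx
      simp; exact hx.2
  rw [h3, integral_Icc_eq_integral_Ioc, ← intervalIntegral.integral_of_le (by norm_num)]
  congr 1
  have : ∫ x in (0 : ℝ)..1, (1 - x) = 1 / 2 := by
    rw [intervalIntegral.integral_sub (by simp) (by simp)]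
    simp
    norm_num
  rw [this]

/-- the linear map `z ↦ re z · p + im z · q` -/
noncomputable def linPQ (p q : ℂ) : ℂ →ₗ[ℝ] ℂ :=
  Complex.reLm.smulRight p + Complex.imLm.smulRight q

theorem linPQ_apply (p q z : ℂ) : linPQ p q z = (z.re : ℂ) * p + (z.im : ℂ) * q := by
  simp [linPQ]

theorem det_linPQ (p q : ℂ) : LinearMap.det (linPQ p q) = p.re * q.im - p.im * q.re := by
  rw [← LinearMap.det_toMatrix Complex.basisOneI, Matrix.det_fin_two]
  simp [LinearMap.toMatrix_apply, linPQ_apply, Complex.coe_basisOneI]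
  ring

theorem volume_triangle (a b c : ℂ) :
    volume (convexHull ℝ ({a, b, c} : Set ℂ)) = ENNReal.ofReal (|ori a b c| / 2) := by
  have himg : convexHull ℝ ({a, b, c} : Set ℂ) = (fun z => a + z) '' (linPQ (b - a) (c - a) '' stdTri) := by
    apply Subset.antisymm
    · apply convexHull_min
      · intro y hy
        simp only [mem_insert_iff, mem_singleton_iff] at hy
        rcases hy with rfl | rfl | rfl
        · exact ⟨0, ⟨0, by simp [stdTri], by simp⟩, by simp⟩
        · refine ⟨y - a, ⟨1, by simp [stdTri], ?_⟩, by simp⟩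
          simp [linPQ_apply]
        · refine ⟨y - a, ⟨Complex.I, by simp [stdTri], ?_⟩, by simp⟩
          simp [linPQ_apply]
      · have hconv : Convex ℝ stdTri := by
          intro x hx y hy s t hs ht hst
          obtain ⟨x1, x2, x3⟩ := hx
          obtain ⟨y1, y2, y3⟩ := hy
          refine ⟨?_, ?_, ?_⟩
          · simp; positivity
          · simp; positivity
          · simp; nlinarith
        exact (hconv.linear_image (linPQ (b - a) (c - a))).translate a
    · rintro _ ⟨_, ⟨w, ⟨h1, h2, h3⟩, rfl⟩, rfl⟩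
      simp only [linPQ_apply]
      have : a + ((w.re : ℂ) * (b - a) + (w.im : ℂ) * (c - a)) =
          (1 - w.re - w.im) • a + w.re • b + w.im • c := by
        simp only [Complex.real_smul]; push_cast; ring
      rw [this]
      have hc := convex_convexHull ℝ ({a, b, c} : Set ℂ)
      have ha' : a ∈ convexHull ℝ ({a, b, c} : Set ℂ) := subset_convexHull ℝ _ (by simp)
      have hb' : b ∈ convexHull ℝ ({a, b, c} : Set ℂ) := subset_convexHull ℝ _ (by simp)
      have hc' : c ∈ convexHull ℝ ({a, b, c} : Set ℂ) := subset_convexHull ℝ _ (by simp)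
      have := hc.sum_mem (t := Finset.univ)
        (w := ![1 - w.re - w.im, w.re, w.im]) (z := ![a, b, c]) ?_ ?_ ?_
      · simpa [Fin.sum_univ_three] using this
      · intro i _
        fin_cases i <;> simp <;> linarith
      · simp [Fin.sum_univ_three]; ring
      · intro i _
        fin_cases i <;> simp [ha', hb', hc']
  rw [himg]
  rw [Set.image_add_left, measure_preimage_add, Measure.addHaar_image_linearMap, det_linPQ,
    volume_stdTri]
  rw [← ENNReal.ofReal_mul (abs_nonneg _)]
  congr 1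
  have : (b - a).re * (c - a).im - (b - a).im * (c - a).re = ori a b c := by
    unfold ori; simp
  rw [this]; ring

end MP97284cP
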