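import Mathlib
import Pool.Agent.Lib.MP_97284c_gt.P.Hull
import Pool.Agent.Lib.MP_97284c_gt.G.Tri

/-!
# MP_97284c_gt, part G: the shoelace formula for the area of the hull
-/

namespace MP97284cP

open MeasureTheory Set

/-- cross product -/
def cr (a b : ℂ) : ℝ := a.re * b.im - a.im * b.re

theorem ori_eq_cr (a b c : ℂ) : ori a b c = cr a b + cr b c + cr c a := by
  unfold ori cr; ring

theorem cr_self (a : ℂ) : cr a a = 0 := by unfold cr; ring

theorem cr_swap (a b : ℂ) : cr a b = - cr b a := by unfold cr; ring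

theorem ori_swap' (a b c : ℂ) : ori a b c = - ori a c b := by unfold ori; ring

/-- signed area of the closed polygon `v` (shoelace formula) -/
noncomputable def sh {n : ℕ} [NeZero n] (v : Fin n → ℂ) : ℝ := (∑ i, cr (v i) (v (i + 1))) / 2

theorem fan_sum (w : ℕ → ℂ) (m : ℕ) :
    ∑ k ∈ Finset.range m, ori (w 0) (w k) (w (k + 1)) =
      ∑ k ∈ Finset.range m, cr (w k) (w (k + 1)) + cr (w m) (w 0) := by
  induction m with
  | zero => simp [cr_self]
  | succ m ih =>
    rw [Finset.sum_range_succ, Finset.sum_range_succ, ih, ori_eq_cr, cr_swap (w 0) (w m)]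
    ring

/-- the sequence of vertices, continued by `0` -/
def ext {n : ℕ} (v : Fin n → ℂ) : ℕ → ℂ := fun k => if hk : k < n then v ⟨k, hk⟩ else 0

theorem ext_eq {n : ℕ} (v : Fin n → ℂ) (k : ℕ) (hk : k < n) : ext v k = v ⟨k, hk⟩ := by
  simp [ext, hk]

theorem sh_eq_fan {n : ℕ} [NeZero n] (v : Fin n → ℂ) :
    sh v = (∑ k ∈ Finset.range (n - 1), ori (ext v 0) (ext v k) (ext v (k + 1))) / 2 := by
  obtain ⟨m, rfl⟩ : ∃ m, n = m + 1 := ⟨n - 1, by have := NeZero.ne n; omega⟩
  rw [fan_sum]
  unfold sh
  congr 1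
  have h1 : ∀ i : Fin (m + 1), cr (v i) (v (i + 1)) =
      (fun k : ℕ => if k < m then cr (ext v k) (ext v (k + 1)) else cr (ext v m) (ext v 0)) i.val := by
    intro i
    simp only
    rcases Nat.lt_or_ge i.val m with h | h
    · rw [if_pos h, ext_eq v _ i.isLt, ext_eq v (i.val + 1) (by omega)]
      congr 2
      apply Fin.ext
      exact Fin.val_add_one_of_lt' (by omega)
    · rw [if_neg (by omega)]
      have hi : i.val = m := by have := i.isLt; omega
      have : i = Fin.last m := Fin.ext hi
      subst this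
      rw [Fin.last_add_one, ext_eq v m (by omega), ext_eq v 0 (by omega)]
      rfl
  rw [Finset.sum_congr rfl (fun i _ => h1 i),
    Fin.sum_univ_eq_sum_range (fun k : ℕ => if k < m then cr (ext v k) (ext v (k + 1))
      else cr (ext v m) (ext v 0)) (m + 1), Finset.sum_range_succ]
  simp only [lt_irrefl, if_false, Nat.add_sub_cancel]
  congr 1
  apply Finset.sum_congr rfl
  intro k hk
  rw [if_pos (Finset.mem_range.1 hk)]

/-- the linear functional behind `ori` -/
noncomputable def crL (a : ℂ) : ℂ →ₗ[ℝ] ℝ := a.re • Complex.imLm - a.im • Complex.reLm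

theorem crL_apply (a z : ℂ) : crL a z = cr a z := by simp [crL, cr]

theorem volume_line (a b : ℂ) (h : a ≠ b) : volume {z : ℂ | ori a b z = 0} = 0 := by
  have h1 : {z : ℂ | ori a b z = 0} = (fun z => (-a) + z) ⁻¹' (LinearMap.ker (crL (b - a)) : Set ℂ) := by
    ext z
    simp only [mem_ofPred_eq, mem_preimage, SetLike.mem_coe, LinearMap.mem_ker, crL_apply]
    have : ori a b z = cr (b - a) (-a + z) := by unfold ori cr; simp; ring
    rw [this]
  rw [h1, measure_preimage_add]
  apply Measure.addHaar_submodule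
  intro hcon
  have h2 : crL (b - a) (Complex.I * (b - a)) = 0 := by
    rw [← LinearMap.mem_ker, hcon]; trivial
  rw [crL_apply] at h2
  have h3 : cr (b - a) (Complex.I * (b - a)) = Complex.normSq (b - a) := by
    unfold cr; simp [Complex.normSq_apply]; ring
  rw [h3] at h2
  exact h (sub_eq_zero.1 (Complex.normSq_eq_zero.1 h2)).symm

/-- weakly ccw sequences -/
def WCcw {n : ℕ} (v : Fin n → ℂ) : Prop :=
  ∀ i j k : Fin n, i ≤ j → j ≤ k → 0 ≤ ori (v i) (v j) (v k)

theorem Ccw.weak {n : ℕ} {v : Fin n → ℂ} (h : Ccw v) : WCcw v := by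
  intro i j k hij hjk
  rcases hij.lt_or_eq with h1 | h1
  · rcases hjk.lt_or_eq with h2 | h2
    · exact (h i j k h1 h2).le
    · subst h2; rw [ori_self2]
  · subst h1; rw [ori_self0]

theorem convex_halfplane' (a b : ℂ) : Convex ℝ {z : ℂ | ori a b z ≤ 0} := by
  intro x hx y hy s t hs ht hst
  simp only [mem_ofPred_eq] at *
  rw [ori_affine a b x y s t hst]
  have := mul_nonpos_of_nonneg_of_nonpos hs hx
  have := mul_nonpos_of_nonneg_of_nonpos ht hy
  linarith

/-- the fan triangle number `k` -/
def tri (w : ℕ → ℂ) (k : ℕ) : Set ℂ := convexHull ℝ {w 0, w k, w (k + 1)}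

theorem measurableSet_tri (w : ℕ → ℂ) (k : ℕ) : MeasurableSet (tri w k) := by
  apply IsClosed.measurableSet
  apply IsCompact.isClosed
  apply Set.Finite.isCompact_convexHull
  exact Set.toFinite _

theorem volume_fan_ge (w : ℕ → ℂ) (m : ℕ)
    (h : ∀ i j, i ≤ j → j ≤ m → 0 ≤ ori (w 0) (w i) (w j)) :
    ENNReal.ofReal ((∑ k ∈ Finset.range m, ori (w 0) (w k) (w (k + 1))) / 2) ≤
      volume (⋃ k ∈ Finset.range m, tri w k) := by
  induction m with
  | zero => simp
  | succ m ih =>
    have ih' := ih (fun i j hij hj => h i j hij (by omega))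
    rw [Finset.sum_range_succ, Finset.range_add_one, Finset.set_biUnion_insert, union_comm]
    have hT : volume (tri w m) = ENNReal.ofReal (ori (w 0) (w m) (w (m + 1)) / 2) := by
      unfold tri
      rw [volume_triangle, abs_of_nonneg (h m (m + 1) (by omega) le_rfl)]
    have hnn : 0 ≤ ori (w 0) (w m) (w (m + 1)) := h m (m + 1) (by omega) le_rfl
    have hsum : 0 ≤ ∑ k ∈ Finset.range m, ori (w 0) (w k) (w (k + 1)) := by
      apply Finset.sum_nonneg
      intro k hk
      have := Finset.mem_range.1 hk
      exact h k (k + 1) (by omega) (by omega)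
    by_cases hm : w 0 = w m
    · have h0 : ori (w 0) (w m) (w (m + 1)) = 0 := by rw [← hm, ori_self0]
      rw [h0, add_zero]
      exact ih'.trans (measure_mono subset_union_left)
    · rw [measure_union₀ (measurableSet_tri w m).nullMeasurableSet]
      · rw [hT, add_div, ENNReal.ofReal_add (by positivity) (by positivity)]
        gcongr
      · -- a.e. disjoint
        have hsub1 : (⋃ k ∈ Finset.range m, tri w k) ⊆ {z | ori (w 0) (w m) z ≤ 0} := by
          apply iUnion₂_subset
          intro k hk
          have hk' := Finset.mem_range.1 hk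
          apply convexHull_min _ (convex_halfplane' _ _)
          intro y hy
          simp only [mem_insert_iff, mem_singleton_iff] at hy
          simp only [mem_ofPred_eq]
          rcases hy with rfl | rfl | rfl
          · rw [ori_self1]
          · have := h k m (by omega) (by omega)
            rw [ori_swap'] at this
            linarith
          · have := h (k + 1) m (by omega) (by omega)
            rw [ori_swap'] at this
            linarith
        have hsub2 : tri w m ⊆ {z | 0 ≤ ori (w 0) (w m) z} := by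
          apply convexHull_min _ (convex_halfplane _ _)
          intro y hy
          simp only [mem_insert_iff, mem_singleton_iff] at hy
          simp only [mem_ofPred_eq]
          rcases hy with rfl | rfl | rfl
          · rw [ori_self1]
          · rw [ori_self2]
          · exact hnn
        unfold AEDisjoint
        apply measure_mono_null _ (volume_line (w 0) (w m) hm)
        rintro z ⟨h1, h2⟩
        exact le_antisymm (hsub1 h1) (hsub2 h2)

theorem WCcw.sh_le_volume {n : ℕ} [NeZero n] {v : Fin n → ℂ} (h : WCcw v) :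
    ENNReal.ofReal (sh v) ≤ volume (convexHull ℝ (range v)) := by
  have hn : 0 < n := Nat.pos_of_ne_zero (NeZero.ne n)
  rw [sh_eq_fan]
  refine (volume_fan_ge (ext v) (n - 1) ?_).trans (measure_mono ?_)
  · intro i j hij hj
    rw [ext_eq v 0 hn, ext_eq v i (by omega), ext_eq v j (by omega)]
    apply h
    · rw [Fin.le_def]; exact Nat.zero_le _
    · rw [Fin.le_def]; exact hij
  · apply iUnion₂_subset
    intro k hk
    have hk' := Finset.mem_range.1 hk
    apply convexHull_mono
    intro y hy
    simp only [mem_insert_iff, mem_singleton_iff] at hy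
    rcases hy with rfl | rfl | rfl
    · rw [ext_eq v 0 hn]; exact mem_range_self _
    · rw [ext_eq v k (by omega)]; exact mem_range_self _
    · rw [ext_eq v (k + 1) (by omega)]; exact mem_range_self _

/-- every point of the hull of a ccw polygon lies in one of the fan triangles -/
theorem exists_fan_tri {n : ℕ} [NeZero n] {v : Fin n → ℂ} (h : Ccw v) (hn : 3 ≤ n) {z : ℂ}
    (hz : z ∈ convexHull ℝ (range v)) : ∃ k, k < n - 1 ∧ z ∈ tri (ext v) k := by
  have hz := (mem_hull_iff h hn z).1 hz
  have hw : ∀ k (hk : k < n), ext v k = v ⟨k, hk⟩ := ext_eq v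
  have f1 : 0 ≤ ori (ext v 0) (ext v 1) z := by
    have := hz 0
    rw [hw 0 (by omega), hw 1 (by omega)]
    have e1 : (0 : Fin n) + 1 = ⟨1, by omega⟩ := by
      apply Fin.ext
      rw [zero_add]
      simp [Nat.mod_eq_of_lt (show 1 < n by omega)]
    rw [e1] at this
    exact this
  have fn : ori (ext v 0) (ext v (n - 1)) z ≤ 0 := by
    have := hz ⟨n - 1, by omega⟩
    rw [hw 0 (by omega), hw (n - 1) (by omega), ori_swap]
    have e : (⟨n - 1, by omega⟩ : Fin n) + 1 = 0 := by
      apply Fin.ext
      rw [Fin.val_add]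
      simp
      rw [Nat.sub_add_cancel (by omega), Nat.mod_self]
    rw [e] at this
    have e0 : (⟨0, by omega⟩ : Fin n) = 0 := rfl
    rw [e0]
    linarith
  have hex : ∃ j, 2 ≤ j ∧ j ≤ n - 1 ∧ ori (ext v 0) (ext v j) z ≤ 0 := ⟨n - 1, by omega, le_rfl, fn⟩
  classical
  obtain ⟨j, ⟨hj2, hjn, hj⟩, hmin⟩ :
      ∃ j, (2 ≤ j ∧ j ≤ n - 1 ∧ ori (ext v 0) (ext v j) z ≤ 0) ∧
        ∀ i, i < j → ¬ (2 ≤ i ∧ i ≤ n - 1 ∧ ori (ext v 0) (ext v i) z ≤ 0) :=
    ⟨Nat.find hex, Nat.find_spec hex, fun i hi => Nat.find_min hex hi⟩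
  have hk : 0 ≤ ori (ext v 0) (ext v (j - 1)) z := by
    rcases Nat.lt_or_ge (j - 1) 2 with hlt | hge
    · have : j - 1 = 1 := by omega
      rw [this]; exact f1
    · have := hmin (j - 1) (by omega)
      by_contra hcon
      apply this
      exact ⟨hge, by omega, by linarith⟩
  have hedge : 0 ≤ ori (ext v (j - 1)) (ext v j) z := by
    have := hz ⟨j - 1, by omega⟩
    rw [hw (j - 1) (by omega), hw j (by omega)]
    have e : (⟨j - 1, by omega⟩ : Fin n) + 1 = ⟨j, by omega⟩ := by
      apply Fin.ext
      rw [Fin.val_add]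
      simp
      rw [Nat.sub_add_cancel (by omega), Nat.mod_eq_of_lt (by omega)]
    rw [e] at this
    exact this
  have hD : 0 < ori (ext v 0) (ext v (j - 1)) (ext v j) := by
    rw [hw 0 (by omega), hw (j - 1) (by omega), hw j (by omega)]
    apply h
    · rw [Fin.lt_def]; simp; omega
    · rw [Fin.lt_def]; simp; omega
  have hlast : 0 ≤ ori (ext v j) (ext v 0) z := by rw [ori_swap]; linarith
  have := mem_triangle hD hk hedge hlast
  refine ⟨j - 1, by omega, ?_⟩
  unfold tri
  have e : j - 1 + 1 = j := by omega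
  rw [e]; exact this

theorem Ccw.sh_nonneg {n : ℕ} [NeZero n] {v : Fin n → ℂ} (h : WCcw v) : 0 ≤ sh v := by
  have hn : 0 < n := Nat.pos_of_ne_zero (NeZero.ne n)
  rw [sh_eq_fan]
  apply div_nonneg _ (by norm_num)
  apply Finset.sum_nonneg
  intro k hk
  have hk' := Finset.mem_range.1 hk
  rw [ext_eq v 0 hn, ext_eq v k (by omega), ext_eq v (k + 1) (by omega)]
  apply h
  · rw [Fin.le_def]; exact Nat.zero_le _
  · rw [Fin.le_def]; simp

/-- the area of the hull of a strictly convex ccw polygon -/
theorem Ccw.volume_hull {n : ℕ} [NeZero n] {v : Fin n → ℂ} (h : Ccw v) (hn : 3 ≤ n) :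
    volume (convexHull ℝ (range v)) = ENNReal.ofReal (sh v) := by
  apply le_antisymm _ h.weak.sh_le_volume
  have hsub : convexHull ℝ (range v) ⊆ ⋃ k ∈ Finset.range (n - 1), tri (ext v) k := by
    intro z hz
    obtain ⟨k, hk, hk2⟩ := exists_fan_tri h hn hz
    exact mem_iUnion₂.2 ⟨k, Finset.mem_range.2 hk, hk2⟩
  refine (measure_mono hsub).trans ((measure_biUnion_finset_le _ _).trans ?_)
  rw [sh_eq_fan, Finset.sum_div, ENNReal.ofReal_sum_of_nonneg]
  · apply Finset.sum_le_sum
    intro k hk
    have hk' := Finset.mem_range.1 hk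
    unfold tri
    rw [volume_triangle, abs_of_nonneg]
    rw [ext_eq v 0 (by omega), ext_eq v k (by omega), ext_eq v (k + 1) (by omega)]
    apply h.weak
    · rw [Fin.le_def]; exact Nat.zero_le _
    · rw [Fin.le_def]; simp
  · intro k hk
    have hk' := Finset.mem_range.1 hk
    apply div_nonneg _ (by norm_num)
    rw [ext_eq v 0 (by omega), ext_eq v k (by omega), ext_eq v (k + 1) (by omega)]
    apply h.weak
    · rw [Fin.le_def]; exact Nat.zero_le _
    · rw [Fin.le_def]; simp

end MP97284cP
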