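import Mathlib
import Pool.Agent.Lib.MP_97284c_gt.G.Shoe

/-!
# MP_97284c_gt, part G: counterclockwise enumeration of the extreme points
-/

namespace MP97284cP

open MeasureTheory Set

theorem cr_polar (z w : ℂ) : cr z w = ‖z‖ * ‖w‖ * Real.sin (w.arg - z.arg) := by
  unfold cr
  rw [Real.sin_sub]
  have h1 := Complex.norm_mul_cos_arg z
  have h2 := Complex.norm_mul_sin_arg z
  have h3 := Complex.norm_mul_cos_arg w
  have h4 := Complex.norm_mul_sin_arg w
  rw [← h1, ← h2, ← h3, ← h4]
  rw [h1, h2, h3, h4]
  have e1 : ‖z‖ * ‖w‖ * (Real.sin w.arg * Real.cos z.arg - Real.cos w.arg * Real.sin z.arg) =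
    (‖z‖ * Real.cos z.arg) * (‖w‖ * Real.sin w.arg) -
      (‖z‖ * Real.sin z.arg) * (‖w‖ * Real.cos w.arg) := by ring
  rw [e1, h1, h2, h3, h4]

/-- the lexicographic right half plane -/
def HP (z : ℂ) : Prop := 0 < z.re ∨ (z.re = 0 ∧ 0 < z.im)

theorem HP.arg_le {z : ℂ} (h : HP z) : z.arg ≤ Real.pi / 2 := by
  rw [Complex.arg_le_pi_div_two_iff]
  rcases h with h | ⟨h, _⟩
  · left; exact h.le
  · left; exact h.ge

theorem HP.lt_arg {z : ℂ} (h : HP z) : -(Real.pi / 2) < z.arg := by
  apply lt_of_le_of_ne
  · rw [Complex.neg_pi_div_two_le_arg_iff]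
    rcases h with h | ⟨_, h⟩
    · left; exact h.le
    · right; exact h.le
  · intro hcon
    have := Complex.arg_eq_neg_pi_div_two_iff.1 hcon.symm
    rcases h with h | ⟨_, h⟩
    · linarith [this.1]
    · linarith [this.2]

theorem HP.ne_zero {z : ℂ} (h : HP z) : z ≠ 0 := by
  rintro rfl
  rcases h with h | ⟨_, h⟩ <;> simp at h

theorem HP.cr_pos {z w : ℂ} (hz : HP z) (hw : HP w) (h : z.arg < w.arg) : 0 < cr z w := by
  rw [cr_polar]
  have h1 : 0 < ‖z‖ := norm_pos_iff.2 hz.ne_zero
  have h2 : 0 < ‖w‖ := norm_pos_iff.2 hw.ne_zero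
  have h3 : 0 < Real.sin (w.arg - z.arg) := by
    apply Real.sin_pos_of_pos_of_lt_pi
    · linarith
    · have := hz.lt_arg
      have := hw.arg_le
      linarith
  positivity

/-- convex independence of a finite set -/
def CInd (E : Finset ℂ) : Prop := ∀ e ∈ E, e ∉ convexHull ℝ ((E : Set ℂ) \ {e})

theorem arg_inj {E : Finset ℂ} (hE : CInd E) {b p q : ℂ} (hb : b ∈ E) (hp : p ∈ E) (hq : q ∈ E)
    (hpb : HP (p - b)) (hqb : HP (q - b)) (h : (p - b).arg = (q - b).arg) : p = q := by
  by_contra hne
  have hcr : cr (p - b) (q - b) = 0 := by rw [cr_polar, h]; simp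
  have hp0 : p ≠ b := fun h => hpb.ne_zero (sub_eq_zero.2 h)
  have hq0 : q ≠ b := fun h => hqb.ne_zero (sub_eq_zero.2 h)
  -- one of them lies between `b` and the other one
  have key : ∀ x y : ℂ, x ∈ E → y ∈ E → x ≠ b → y ≠ b → x ≠ y →
      (x - b).arg = (y - b).arg → ‖x - b‖ ≤ ‖y - b‖ → False := by
    intro x y hx hy hx0 hy0 hxy harg hle
    have hy1 : 0 < ‖y - b‖ := norm_pos_iff.2 (sub_ne_zero.2 hy0)
    have e : x - b = ((‖x - b‖ / ‖y - b‖ : ℝ) : ℂ) * (y - b) := by
      have h1 := Complex.norm_mul_exp_arg_mul_I (x - b)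
      have h2 := Complex.norm_mul_exp_arg_mul_I (y - b)
      rw [harg] at h1
      push_cast
      have : (‖y - b‖ : ℂ) ≠ 0 := by exact_mod_cast hy1.ne'
      field_simp
      linear_combination (-(‖y - b‖ : ℂ)) * h1 + (‖x - b‖ : ℂ) * h2
    have hmem : x ∈ segment ℝ b y := by
      refine ⟨1 - ‖x - b‖ / ‖y - b‖, ‖x - b‖ / ‖y - b‖, ?_, by positivity, by ring, ?_⟩
      · rw [sub_nonneg, div_le_one hy1]; exact hle
      · simp only [Complex.real_smul]
        push_cast
        push_cast at e
        linear_combination -e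
    apply hE x hx
    apply (convex_convexHull ℝ _).segment_subset _ _ hmem
    · apply subset_convexHull
      exact ⟨hb, fun h => hx0 (by simpa using h.symm)⟩
    · apply subset_convexHull
      exact ⟨hy, fun h => hxy (by simpa using h.symm)⟩
  rcases le_total ‖p - b‖ ‖q - b‖ with hle | hle
  · exact key p q hp hq hp0 hq0 hne h hle
  · exact key q p hq hp hq0 hp0 (Ne.symm hne) h.symm hle

/-- ccw enumeration of a convex independent finite set -/
theorem exists_ccw_of_cind (E : Finset ℂ) (hE : CInd E) (hne : E.Nonempty) :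
    ∃ w : Fin E.card → ℂ, Function.Injective w ∧ range w = (E : Set ℂ) ∧ Ccw w := by
  classical
  -- base point
  obtain ⟨b, hb, hbmin⟩ : ∃ b ∈ E, ∀ e ∈ E, e ≠ b → HP (e - b) := by
    obtain ⟨b, hb, hmin⟩ := E.exists_min_image (fun z : ℂ => toLex (z.re, z.im)) hne
    refine ⟨b, hb, ?_⟩
    intro e he hne
    have h := hmin e he
    rw [Prod.Lex.toLex_le_toLex] at h
    rcases h with h | ⟨h1, h2⟩
    · left; simp at h ⊢; exact h
    · right
      simp at h1 h2 ⊢
      refine ⟨by linarith, ?_⟩
      rcases h2.lt_or_eq with h3 | h3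
      · exact h3
      · exact absurd (Complex.ext h1.symm h3.symm) hne
  set k := (E.erase b).card with hk
  have hcard : E.card = k + 1 := by
    rw [hk, Finset.card_erase_of_mem hb]
    have := Finset.card_pos.2 hne
    omega
  -- an enumeration of the other points
  let e0 : Fin k → ℂ := fun i => ((E.erase b).equivFin.symm i : ℂ)
  have he0 : Function.Injective e0 := by
    intro i j hij
    exact (E.erase b).equivFin.symm.injective (Subtype.ext hij)
  have he0r : range e0 = ((E.erase b : Finset ℂ) : Set ℂ) := by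
    ext z
    constructor
    · rintro ⟨i, rfl⟩
      exact ((E.erase b).equivFin.symm i).2
    · intro hz
      refine ⟨(E.erase b).equivFin ⟨z, hz⟩, ?_⟩
      simp [e0]
  let key : Fin k → ℝ := fun i => (e0 i - b).arg
  let e : Fin k → ℂ := fun i => e0 (Tuple.sort key i)
  have he : Function.Injective e := he0.comp (Tuple.sort key).injective
  have her : range e = ((E.erase b : Finset ℂ) : Set ℂ) := by
    rw [← he0r]
    exact (Tuple.sort key).surjective.range_comp e0
  have hemem : ∀ i, e i ∈ E ∧ e i ≠ b := by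
    intro i
    have : e i ∈ ((E.erase b : Finset ℂ) : Set ℂ) := by rw [← her]; exact mem_range_self i
    have := Finset.mem_erase.1 (Finset.mem_coe.1 this)
    exact ⟨this.2, this.1⟩
  have heHP : ∀ i, HP (e i - b) := fun i => hbmin _ (hemem i).1 (hemem i).2
  have hmono : ∀ i j, i < j → (e i - b).arg < (e j - b).arg := by
    intro i j hij
    have h1 : (e i - b).arg ≤ (e j - b).arg := Tuple.monotone_sort key hij.le
    apply lt_of_le_of_ne h1
    intro hcon
    have := arg_inj hE hb (hemem i).1 (hemem j).1 (heHP i) (heHP j) hcon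
    exact hij.ne (he this)
  have hori : ∀ i j, i < j → 0 < ori b (e i) (e j) := by
    intro i j hij
    have := (heHP i).cr_pos (heHP j) (hmono i j hij)
    have e1 : cr (e i - b) (e j - b) = ori b (e i) (e j) := by unfold cr ori; simp
    rwa [e1] at this
  have main : ∃ w : Fin (k + 1) → ℂ, Function.Injective w ∧ range w = (E : Set ℂ) ∧ Ccw w := by
    refine ⟨Fin.cons b e, ?_, ?_, ?_⟩
    · rw [Fin.cons_injective_iff]
      refine ⟨?_, he⟩
      rw [her]
      simp
    · rw [Fin.range_cons, her]
      ext z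
      simp only [Finset.coe_erase, mem_insert_iff, mem_sdiff, mem_singleton_iff, Finset.mem_coe]
      constructor
      · rintro (rfl | h)
        · exact hb
        · exact h.1
      · intro h
        by_cases hz : z = b
        · left; exact hz
        · right; exact ⟨h, hz⟩
    · intro i j l hij hjl
      obtain ⟨j', rfl⟩ : ∃ j', j = Fin.succ j' :=
        Fin.exists_succ_eq.2 (by rintro rfl; exact absurd hij (Fin.not_lt_zero i)) |>.imp
          (fun _ h => h.symm)
      obtain ⟨l', rfl⟩ : ∃ l', l = Fin.succ l' :=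
        Fin.exists_succ_eq.2 (by rintro rfl; exact absurd hjl (Fin.not_lt_zero _)) |>.imp
          (fun _ h => h.symm)
      rw [Fin.succ_lt_succ_iff] at hjl
      refine Fin.cases ?_ ?_ i hij
      · intro _
        simp only [Fin.cons_zero, Fin.cons_succ]
        exact hori j' l' hjl
      · intro i' hij'
        rw [Fin.succ_lt_succ_iff] at hij'
        simp only [Fin.cons_succ]
        by_contra hcon
        push Not at hcon
        have hmem : e j' ∈ convexHull ℝ ({b, e i', e l'} : Set ℂ) := by
          apply mem_triangle (hori i' l' (hij'.trans hjl))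
          · exact (hori i' j' hij').le
          · rw [ori_swap']; linarith
          · have h1 := hori j' l' hjl
            have : ori (e l') b (e j') = ori b (e j') (e l') := ori_cyc _ _ _
            rw [this]; exact h1.le
        apply hE (e j') (hemem j').1
        apply convexHull_mono _ hmem
        intro y hy
        simp only [mem_insert_iff, mem_singleton_iff] at hy
        rcases hy with rfl | rfl | rfl
        · exact ⟨hb, fun h => (hemem j').2 (by simpa using h.symm)⟩
        · exact ⟨(hemem i').1, fun h => hij'.ne (he (by simpa using h))⟩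
        · exact ⟨(hemem l').1, fun h => hjl.ne' (he (by simpa using h))⟩
  rw [hcard]
  exact main

/-- the extreme points of the hull of a finite set -/
theorem exists_cind (F : Finset ℂ) : ∃ E : Finset ℂ, E ⊆ F ∧ CInd E ∧
    convexHull ℝ (E : Set ℂ) = convexHull ℝ (F : Set ℂ) := by
  classical
  have hfin : ((convexHull ℝ (F : Set ℂ)).extremePoints ℝ).Finite :=
    (Finset.finite_toSet F).subset extremePoints_convexHull_subset
  refine ⟨hfin.toFinset, ?_, ?_, ?_⟩
  · intro z hz
    rw [Set.Finite.mem_toFinset] at hz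
    exact extremePoints_convexHull_subset hz
  · intro e he hcon
    rw [Set.Finite.mem_toFinset] at he
    have hsub : convexHull ℝ ((hfin.toFinset : Set ℂ) \ {e}) ⊆ convexHull ℝ (F : Set ℂ) \ {e} := by
      apply convexHull_min
      · rintro y ⟨hy, hye⟩
        rw [Set.Finite.coe_toFinset] at hy
        exact ⟨hy.1, hye⟩
      · exact ((convex_convexHull ℝ (F : Set ℂ)).mem_extremePoints_iff_convex_sdiff.1 he).2
    exact (hsub hcon).2 rfl
  · rw [Set.Finite.coe_toFinset]
    have hc : IsCompact (convexHull ℝ (F : Set ℂ)) :=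
      (Finset.finite_toSet F).isCompact_convexHull ℝ
    have := closure_convexHull_extremePoints hc (convex_convexHull ℝ (F : Set ℂ))
    rwa [IsClosed.closure_eq (hfin.isCompact_convexHull ℝ).isClosed] at this

theorem exists_ccw_enum (F : Finset ℂ) (hF : F.Nonempty) :
    ∃ (m : ℕ) (w : Fin m → ℂ), 0 < m ∧ m ≤ F.card ∧ Function.Injective w ∧ range w ⊆ (F : Set ℂ) ∧
      Ccw w ∧ convexHull ℝ (range w) = convexHull ℝ (F : Set ℂ) := by
  obtain ⟨E, hEF, hE, hh⟩ := exists_cind F
  have hEne : E.Nonempty := by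
    rw [Finset.nonempty_iff_ne_empty]
    rintro rfl
    obtain ⟨z, hz⟩ := hF
    have hz2 : z ∈ convexHull ℝ (F : Set ℂ) := subset_convexHull ℝ _ hz
    rw [← hh] at hz2
    simp at hz2
  obtain ⟨w, hw1, hw2, hw3⟩ := exists_ccw_of_cind E hE hEne
  refine ⟨E.card, w, Finset.card_pos.2 hEne, Finset.card_le_card hEF, hw1, ?_, hw3, ?_⟩
  · rw [hw2]; exact_mod_cast hEF
  · rw [hw2, hh]

end MP97284cP
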