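import Mathlib
import Pool.Agent.Lib.MP_97284c_gt.G.Enum

/-!
# MP_97284c_gt, part G: insertion of a vertex and existence of a maximiser
-/

namespace MP97284cP

open MeasureTheory Set Filter Topology

/-- diameter at most one -/
def Small {n : ℕ} (v : Fin n → ℂ) : Prop := ∀ i j, ‖v i - v j‖ ≤ 1

theorem sh_snoc {k : ℕ} (w : Fin (k + 1) → ℂ) (p : ℂ) :
    sh (Fin.snoc (α := fun _ => ℂ) w p : Fin (k + 2) → ℂ) =
      sh w + ori (w 0) (w (Fin.last k)) p / 2 := by
  rw [sh_eq_fan, sh_eq_fan]
  have e1 : k + 2 - 1 = k + 1 := by omega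
  have e2 : k + 1 - 1 = k := by omega
  rw [e1, e2, Finset.sum_range_succ, add_div]
  have hlow : ∀ j, j < k + 1 → ext (Fin.snoc (α := fun _ => ℂ) w p : Fin (k + 2) → ℂ) j = ext w j := by
    intro j hj
    rw [ext_eq _ j (by omega), ext_eq _ j hj]
    have : (⟨j, by omega⟩ : Fin (k + 2)) = Fin.castSucc ⟨j, hj⟩ := rfl
    rw [this, Fin.snoc_castSucc]
  have hlast : ext (Fin.snoc (α := fun _ => ℂ) w p : Fin (k + 2) → ℂ) (k + 1) = p := by
    rw [ext_eq _ (k + 1) (by omega)]
    have : (⟨k + 1, by omega⟩ : Fin (k + 2)) = Fin.last (k + 1) := rfl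
    rw [this, Fin.snoc_last]
  rw [hlast, hlow 0 (by omega), hlow k (by omega)]
  congr 2
  · apply Finset.sum_congr rfl
    intro j hj
    have := Finset.mem_range.1 hj
    rw [hlow j (by omega), hlow (j + 1) (by omega)]
  · rw [ext_eq w 0 (by omega), ext_eq w k (by omega)]
    rfl

theorem ccw_snoc {k : ℕ} {w : Fin (k + 1) → ℂ} (hw : Ccw w) {p : ℂ}
    (hp : ∀ i j, i < j → 0 < ori (w i) (w j) p) :
    Ccw (Fin.snoc (α := fun _ => ℂ) w p : Fin (k + 2) → ℂ) := by
  intro i j l hij hjl
  have hj : j ≠ Fin.last (k + 1) := by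
    rintro rfl
    exact absurd hjl (not_lt.2 (Fin.le_last l))
  have hi : i ≠ Fin.last (k + 1) := by
    rintro rfl
    exact absurd hij (not_lt.2 (Fin.le_last j))
  obtain ⟨i', rfl⟩ := Fin.exists_castSucc_eq.2 hi
  obtain ⟨j', rfl⟩ := Fin.exists_castSucc_eq.2 hj
  rw [Fin.snoc_castSucc, Fin.snoc_castSucc]
  rw [Fin.castSucc_lt_castSucc_iff] at hij
  by_cases hl : l = Fin.last (k + 1)
  · subst hl
    rw [Fin.snoc_last]
    exact hp i' j' hij
  · obtain ⟨l', rfl⟩ := Fin.exists_castSucc_eq.2 hl
    rw [Fin.castSucc_lt_castSucc_iff] at hjl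
    rw [Fin.snoc_castSucc]
    exact hw i' j' l' hij hjl

theorem small_snoc {k : ℕ} {w : Fin (k + 1) → ℂ} (hw : Small w) {p : ℂ}
    (hp : ∀ i, ‖w i - p‖ ≤ 1) :
    Small (Fin.snoc (α := fun _ => ℂ) w p : Fin (k + 2) → ℂ) := by
  intro i j
  by_cases hi : i = Fin.last (k + 1)
  · subst hi
    by_cases hj : j = Fin.last (k + 1)
    · subst hj; simp
    · obtain ⟨j', rfl⟩ := Fin.exists_castSucc_eq.2 hj
      rw [Fin.snoc_last, Fin.snoc_castSucc, norm_sub_rev]
      exact hp j'
  · obtain ⟨i', rfl⟩ := Fin.exists_castSucc_eq.2 hi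
    by_cases hj : j = Fin.last (k + 1)
    · subst hj
      rw [Fin.snoc_last, Fin.snoc_castSucc]
      exact hp i'
    · obtain ⟨j', rfl⟩ := Fin.exists_castSucc_eq.2 hj
      rw [Fin.snoc_castSucc, Fin.snoc_castSucc]
      exact hw i' j'

theorem norm_mid_lt {a b c : ℂ} (hab : a ≠ b) (ha : ‖c - a‖ ≤ 1) (hb : ‖c - b‖ ≤ 1) :
    ‖c - (a + b) / 2‖ < 1 := by
  have h := parallelogram_law_with_norm ℝ (c - a) (c - b)
  have e1 : c - (a + b) / 2 = ((c - a) + (c - b)) / 2 := by ring
  have e2 : (c - a) - (c - b) = b - a := by ring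
  rw [e1, norm_div]
  rw [e2] at h
  have h1 : 0 < ‖b - a‖ := norm_pos_iff.2 (sub_ne_zero.2 hab.symm)
  have h2 : ‖(c - a) + (c - b)‖ < 2 := by
    by_contra hcon
    push Not at hcon
    have := norm_nonneg (c - a)
    have := norm_nonneg (c - b)
    nlinarith
  simp only [Complex.norm_ofNat]
  linarith

/-- insertion of a vertex -/
theorem exists_insert {k : ℕ} (hk : 1 ≤ k) {w : Fin (k + 1) → ℂ} (hw : Ccw w)
    (hinj : Function.Injective w) (hs : Small w) :
    ∃ w' : Fin (k + 2) → ℂ, Ccw w' ∧ Function.Injective w' ∧ Small w' ∧ sh w < sh w' := by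
  set a := w (Fin.last k) with ha
  set b := w 0 with hb
  have hne : a ≠ b := by
    intro h
    have := hinj h
    rw [Fin.ext_iff] at this
    simp at this
    omega
  let p : ℝ → ℂ := fun ε => (a + b) / 2 + (ε : ℂ) * (Complex.I * (a - b))
  have hpc : Continuous p := by fun_prop
  have hp0 : p 0 = (a + b) / 2 := by simp [p]
  have h1 : ∀ i, ∀ᶠ ε in 𝓝[>] (0 : ℝ), ‖w i - p ε‖ < 1 := by
    intro i
    have hc : Continuous (fun ε => ‖w i - p ε‖) := by fun_prop
    have h0 : ‖w i - p 0‖ < 1 := by
      rw [hp0]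
      exact norm_mid_lt hne (hs i _) (hs i _)
    exact nhdsWithin_le_nhds (hc.continuousAt.eventually (gt_mem_nhds h0))
  have hbase : ∀ ε, ori b a (p ε) = ε * Complex.normSq (a - b) := by
    intro ε
    simp only [ori, p, Complex.normSq_apply, Complex.add_re, Complex.add_im, Complex.mul_re,
      Complex.mul_im, Complex.ofReal_re, Complex.ofReal_im, Complex.I_re, Complex.I_im,
      Complex.sub_re, Complex.sub_im, Complex.div_ofNat_re, Complex.div_ofNat_im]
    ring
  have h2 : ∀ i j, i < j → ∀ᶠ ε in 𝓝[>] (0 : ℝ), 0 < ori (w i) (w j) (p ε) := by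
    intro i j hij
    by_cases hc : i = 0 ∧ j = Fin.last k
    · obtain ⟨rfl, rfl⟩ := hc
      filter_upwards [self_mem_nhdsWithin] with ε hε
      rw [hbase]
      exact mul_pos hε (Complex.normSq_pos.2 (sub_ne_zero.2 hne))
    · have hcont : Continuous (fun ε => ori (w i) (w j) (p ε)) :=
        (continuous_ori (w i) (w j)).comp hpc
      have h0 : 0 < ori (w i) (w j) (p 0) := by
        rw [hp0]
        have e : ori (w i) (w j) ((a + b) / 2) = (ori (w i) (w j) a + ori (w i) (w j) b) / 2 := by
          unfold ori; simp; ring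
        rw [e]
        have hja : 0 ≤ ori (w i) (w j) a := by
          rcases (Fin.le_last j).lt_or_eq with h | h
          · exact (hw i j _ hij h).le
          · rw [h, ← ha, ori_self2]
        have hjb : 0 ≤ ori (w i) (w j) b := by
          rcases (Fin.zero_le i).lt_or_eq with h | h
          · rw [← ori_cyc]; exact (hw 0 i j h hij).le
          · rw [← h, ← hb, ori_self1]
        rcases (Fin.le_last j).lt_or_eq with h | h
        · have := hw i j _ hij h
          rw [← ha] at this
          linarith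
        · have hi0 : 0 < i := by
            rcases (Fin.zero_le i).lt_or_eq with h' | h'
            · exact h'
            · exact absurd ⟨h'.symm, h⟩ hc
          have := hw 0 i j hi0 hij
          rw [ori_cyc, ← hb] at this
          linarith
      exact nhdsWithin_le_nhds (hcont.continuousAt.eventually (lt_mem_nhds h0))
  have h1' : ∀ᶠ ε in 𝓝[>] (0 : ℝ), ∀ i, ‖w i - p ε‖ < 1 := eventually_all.2 h1
  have h2' : ∀ᶠ ε in 𝓝[>] (0 : ℝ), ∀ i j, i < j → 0 < ori (w i) (w j) (p ε) := by
    apply eventually_all.2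
    intro i
    apply eventually_all.2
    intro j
    by_cases hij : i < j
    · filter_upwards [h2 i j hij] with ε hε _ using hε
    · filter_upwards with ε h
      exact absurd h hij
  obtain ⟨ε, hε1, hε2, hε3⟩ := (h1'.and (h2'.and self_mem_nhdsWithin)).exists
  have hε3 : 0 < ε := hε3
  refine ⟨Fin.snoc (α := fun _ => ℂ) w (p ε), ccw_snoc hw hε2, ?_,
    small_snoc hs (fun i => (hε1 i).le), ?_⟩
  · rw [Fin.snoc_injective_iff]
    refine ⟨hinj, ?_⟩
    rintro ⟨i, hi⟩
    -- a vertex cannot be the new point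
    have hk1 : (0 : Fin (k + 1)) < Fin.last k := by
      rw [Fin.lt_def]; simp; omega
    rcases (Fin.zero_le i).lt_or_eq with h | h
    · have := hε2 0 i h
      rw [← hi, ori_self2] at this
      exact absurd this (lt_irrefl _)
    · have := hε2 0 (Fin.last k) hk1
      rw [← hi, ← h, ori_self1] at this
      exact absurd this (lt_irrefl _)
  · rw [sh_snoc, ← ha, ← hb, hbase]
    have : 0 < ε * Complex.normSq (a - b) := mul_pos hε3 (Complex.normSq_pos.2 (sub_ne_zero.2 hne))
    linarith

/-- extension to `n` vertices -/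
theorem exists_extend {k : ℕ} (hk : 1 ≤ k) {w : Fin (k + 1) → ℂ} (hw : Ccw w)
    (hinj : Function.Injective w) (hs : Small w) (l : ℕ) (hl : k ≤ l) :
    ∃ v : Fin (l + 1) → ℂ, Ccw v ∧ Function.Injective v ∧ Small v ∧ sh w ≤ sh v ∧
      (k < l → sh w < sh v) := by
  induction l, hl using Nat.le_induction with
  | base =>
    exact ⟨w, hw, hinj, hs, le_rfl, fun h => absurd h (lt_irrefl _)⟩
  | succ l hkl ih =>
    obtain ⟨v, hv1, hv2, hv3, hv4, _⟩ := ih
    obtain ⟨v', h1, h2, h3, h4⟩ := exists_insert (k := l) (by omega) hv1 hv2 hv3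
    exact ⟨v', h1, h2, h3, hv4.trans h4.le, fun _ => lt_of_le_of_lt hv4 h4⟩

/-- two points at distance at most one -/
theorem exists_base : ∃ w : Fin (1 + 1) → ℂ, Ccw w ∧ Function.Injective w ∧ Small w ∧ sh w = 0 := by
  refine ⟨![0, 1], ?_, ?_, ?_, ?_⟩
  · intro i j k hij hjk
    omega
  · intro i j h
    fin_cases i <;> fin_cases j <;> simp at h ⊢
  · intro i j
    fin_cases i <;> fin_cases j <;> simp
  · simp [sh, cr]

/-- a finite set whose hull is not a null set has at least three extreme points -/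
theorem volume_hull_le_two {m : ℕ} (hm : m ≤ 2) (w : Fin m → ℂ) :
    volume (convexHull ℝ (range w)) = 0 := by
  have hex : ∃ a b : ℂ, range w ⊆ {a, b} := by
    interval_cases m
    · exact ⟨0, 0, by simp [range_eq_empty]⟩
    · refine ⟨w 0, w 0, ?_⟩
      rintro _ ⟨i, rfl⟩
      fin_cases i; simp
    · refine ⟨w 0, w 1, ?_⟩
      rintro _ ⟨i, rfl⟩
      fin_cases i <;> simp
  obtain ⟨a, b, hab⟩ := hex
  have h := volume_triangle a b b
  rw [ori_self2, abs_zero, zero_div, ENNReal.ofReal_zero] at h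
  have e : ({a, b, b} : Set ℂ) = {a, b} := by simp
  rw [e] at h
  exact measure_mono_null (convexHull_mono hab) h

/-- every small `(l+1)`-tuple has a strictly convex competitor -/
theorem exists_better {l : ℕ} (hl : 2 ≤ l) (u : Fin (l + 1) → ℂ) (hu : Small u) :
    ∃ v : Fin (l + 1) → ℂ, Ccw v ∧ Function.Injective v ∧ Small v ∧
      volume (convexHull ℝ (range u)) ≤ ENNReal.ofReal (sh v) ∧ 0 < sh v ∧
      (volume (convexHull ℝ (range u)) = ENNReal.ofReal (sh v) →
        ∃ σ : Equiv.Perm (Fin (l + 1)), Ccw (u ∘ σ)) := by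
  classical
  by_cases h0 : volume (convexHull ℝ (range u)) = 0
  · obtain ⟨w, hw1, hw2, hw3, hw4⟩ := exists_base
    obtain ⟨v, hv1, hv2, hv3, hv4, hv5⟩ := exists_extend le_rfl hw1 hw2 hw3 l (by omega)
    have hpos : 0 < sh v := by have := hv5 (by omega); linarith
    refine ⟨v, hv1, hv2, hv3, ?_, hpos, ?_⟩
    · rw [h0]; exact zero_le
    · intro h
      rw [h0] at h
      exact absurd h.symm (by simpa using hpos)
  · obtain ⟨m, w, hm0, hmc, hinj, hr, hccw, hh⟩ := exists_ccw_enum (Finset.univ.image u)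
      ⟨u 0, by simp⟩
    have hcoe : ((Finset.univ.image u : Finset ℂ) : Set ℂ) = range u := by simp
    rw [hcoe] at hr hh
    have hm3 : 3 ≤ m := by
      by_contra hcon
      apply h0
      rw [← hh]
      exact volume_hull_le_two (by omega) w
    have hml : m ≤ l + 1 := by
      refine hmc.trans (Finset.card_image_le.trans ?_)
      simp
    have hsw : Small w := by
      intro i j
      obtain ⟨i', hi'⟩ := hr (mem_range_self i)
      obtain ⟨j', hj'⟩ := hr (mem_range_self j)
      rw [← hi', ← hj']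
      exact hu i' j'
    obtain ⟨k, rfl⟩ : ∃ k, m = k + 1 := ⟨m - 1, by omega⟩
    have hvol := hccw.volume_hull hm3
    obtain ⟨v, hv1, hv2, hv3, hv4, hv5⟩ := exists_extend (by omega) hccw hinj hsw l (by omega)
    have hwpos : 0 < sh w := by
      rw [hh] at hvol
      by_contra hcon
      push Not at hcon
      rw [ENNReal.ofReal_of_nonpos hcon] at hvol
      exact h0 hvol
    refine ⟨v, hv1, hv2, hv3, ?_, lt_of_lt_of_le hwpos hv4, ?_⟩
    · rw [← hh, hvol]
      exact ENNReal.ofReal_le_ofReal hv4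
    · intro heq
      rw [← hh, hvol] at heq
      have heq2 : sh w = sh v := by
        have h1 := congrArg ENNReal.toReal heq
        rwa [ENNReal.toReal_ofReal hwpos.le, ENNReal.toReal_ofReal (hwpos.le.trans hv4)] at h1
      have hkl : k = l := by
        by_contra hne
        have := hv5 (by omega)
        linarith
      subst hkl
      -- `w` is a reordering of `u`
      choose τ hτ using fun i => hr (mem_range_self i)
      have hτi : Function.Injective τ := by
        intro i j hij
        apply hinj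
        rw [← hτ i, ← hτ j, hij]
      refine ⟨Equiv.ofBijective τ (Finite.injective_iff_bijective.1 hτi), ?_⟩
      have : (u ∘ (Equiv.ofBijective τ (Finite.injective_iff_bijective.1 hτi))) = w := by
        ext i
        simp [hτ]
      rw [this]
      exact hccw

theorem continuous_sh {n : ℕ} [NeZero n] : Continuous (fun v : Fin n → ℂ => sh v) := by
  unfold sh cr
  fun_prop

theorem ori_translate (a b c t : ℂ) : ori (a + t) (b + t) (c + t) = ori a b c := by
  unfold ori; simp

/-- existence of a strictly convex maximiser -/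
theorem exists_max {l : ℕ} (hl : 2 ≤ l) :
    ∃ v : Fin (l + 1) → ℂ, Ccw v ∧ Function.Injective v ∧ Small v ∧ 0 < sh v ∧
      (∀ u : Fin (l + 1) → ℂ, Small u →
        volume (convexHull ℝ (range u)) ≤ ENNReal.ofReal (sh v)) ∧
      (∀ u : Fin (l + 1) → ℂ, Small u →
        volume (convexHull ℝ (range u)) = ENNReal.ofReal (sh v) →
        ∃ σ : Equiv.Perm (Fin (l + 1)), Ccw (u ∘ σ)) := by
  let K : Set (Fin (l + 1) → ℂ) := {v | v 0 = 0 ∧ WCcw v ∧ Small v}
  have hKc : IsCompact K := by
    apply Metric.isCompact_of_isClosed_isBounded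
    · have hcl : K = {v | v 0 = 0} ∩ ({v | WCcw v} ∩ {v | Small v}) := by
        ext v; simp [K]
      rw [hcl]
      refine (isClosed_eq (by fun_prop) continuous_const).inter (IsClosed.inter ?_ ?_)
      · have : {v : Fin (l + 1) → ℂ | WCcw v} =
            ⋂ (i) (j) (k) (_ : i ≤ j) (_ : j ≤ k), {v | 0 ≤ ori (v i) (v j) (v k)} := by
          ext v; simp [WCcw]
        rw [this]
        refine isClosed_iInter fun i => isClosed_iInter fun j => isClosed_iInter fun k =>
          isClosed_iInter fun _ => isClosed_iInter fun _ => isClosed_le continuous_const ?_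
        unfold ori
        fun_prop
      · have : {v : Fin (l + 1) → ℂ | Small v} = ⋂ (i) (j), {v | ‖v i - v j‖ ≤ 1} := by
          ext v; simp [Small]
        rw [this]
        refine isClosed_iInter fun i => isClosed_iInter fun j => isClosed_le ?_ continuous_const
        fun_prop
    · rw [isBounded_iff_forall_norm_le]
      refine ⟨1, fun v hv => ?_⟩
      obtain ⟨h0, _, hs⟩ := hv
      rw [pi_norm_le_iff_of_nonneg zero_le_one]
      intro i
      have := hs i 0
      rwa [h0, sub_zero] at this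
  have hKne : K.Nonempty := by
    refine ⟨fun _ => 0, rfl, ?_, ?_⟩
    · intro i j k _ _; simp [ori]
    · intro i j; simp
  obtain ⟨w, hwK, hwmax⟩ := hKc.exists_isMaxOn hKne continuous_sh.continuousOn
  -- every strictly convex small tuple is bounded by `sh w`
  have hbound : ∀ v : Fin (l + 1) → ℂ, Ccw v → Small v → sh v ≤ sh w := by
    intro v hv hs
    have hsub : (fun i => v i + (-v 0)) ∈ K := by
      refine ⟨by simp, ?_, ?_⟩
      · intro i j k hij hjk
        simp only [ori_translate]
        exact hv.weak i j k hij hjk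
      · intro i j
        have : v i + -v 0 - (v j + -v 0) = v i - v j := by ring
        rw [this]; exact hs i j
    have h1 := hwmax hsub
    have h2 : sh (fun i => v i + (-v 0)) = sh v := by
      rw [sh_eq_fan, sh_eq_fan]
      congr 1
      apply Finset.sum_congr rfl
      intro k hk
      have hk' := Finset.mem_range.1 hk
      rw [ext_eq _ 0 (by omega), ext_eq _ k (by omega), ext_eq _ (k + 1) (by omega),
        ext_eq _ 0 (by omega), ext_eq _ k (by omega), ext_eq _ (k + 1) (by omega), ori_translate]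
    simp only [mem_ofPred_eq] at h1
    rw [← h2]
    exact h1
  obtain ⟨v, hv1, hv2, hv3, hv4, hv5, hv6⟩ := exists_better hl w hwK.2.2
  have hwv : sh w ≤ sh v := by
    have h1 := hwK.2.1.sh_le_volume.trans hv4
    exact (ENNReal.ofReal_le_ofReal_iff hv5.le).1 h1
  have hmax : ∀ v' : Fin (l + 1) → ℂ, Ccw v' → Small v' → sh v' ≤ sh v :=
    fun v' h1 h2 => (hbound v' h1 h2).trans hwv
  refine ⟨v, hv1, hv2, hv3, hv5, ?_, ?_⟩
  · intro u hu
    obtain ⟨v', h1, h2, h3, h4, h5, h6⟩ := exists_better hl u hu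
    exact h4.trans (ENNReal.ofReal_le_ofReal (hmax v' h1 h3))
  · intro u hu heq
    obtain ⟨v', h1, h2, h3, h4, h5, h6⟩ := exists_better hl u hu
    apply h6
    apply le_antisymm h4
    rw [heq]
    exact ENNReal.ofReal_le_ofReal (hmax v' h1 h3)

end MP97284cP
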